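import Pool.Agent.H37.CNE.Stmts
import Mathlib.FieldTheory.RatFunc.Luroth

/-!
# Degrees of rational functions: rows `SLT` and `SLM` of the board `cne`
-/

set_option autoImplicit false

namespace Pool.CND

open Polynomial

theorem nd_num_denom {k : Type} [Field k] (P Q : k[X]) (hQ : Q ≠ 0) (hc : IsCoprime P Q) :
    (algebraMap k[X] (RatFunc k) P / algebraMap k[X] (RatFunc k) Q).num.natDegree = P.natDegree ∧
    (algebraMap k[X] (RatFunc k) P / algebraMap k[X] (RatFunc k) Q).denom.natDegree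
      = Q.natDegree := by
  set f := algebraMap k[X] (RatFunc k) P / algebraMap k[X] (RatFunc k) Q with hf
  have hQ' : algebraMap k[X] (RatFunc k) Q ≠ 0 := by
    rw [Ne, FaithfulSMul.algebraMap_eq_zero_iff]; exact hQ
  have hd' : algebraMap k[X] (RatFunc k) f.denom ≠ 0 := by
    rw [Ne, FaithfulSMul.algebraMap_eq_zero_iff]; exact f.denom_ne_zero
  have h0 : algebraMap k[X] (RatFunc k) f.num / algebraMap k[X] (RatFunc k) f.denom
      = algebraMap k[X] (RatFunc k) P / algebraMap k[X] (RatFunc k) Q := by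
    rw [RatFunc.num_div_denom]
  rw [div_eq_div_iff hd' hQ', ← map_mul, ← map_mul] at h0
  have h1 : f.num * Q = P * f.denom := FaithfulSMul.algebraMap_injective _ _ h0
  have hcd := f.isCoprime_num_denom
  have hP : P ∣ f.num := hc.dvd_of_dvd_mul_right (Dvd.intro _ h1.symm)
  have hN : f.num ∣ P := hcd.dvd_of_dvd_mul_right (Dvd.intro _ h1)
  have hQd : Q ∣ f.denom := hc.symm.dvd_of_dvd_mul_left (Dvd.intro_left _ h1)
  have hdQ : f.denom ∣ Q := hcd.symm.dvd_of_dvd_mul_left (Dvd.intro_left _ h1.symm)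
  have ha1 : Associated f.num P := associated_of_dvd_dvd hN hP
  have ha2 : Associated f.denom Q := associated_of_dvd_dvd hdQ hQd
  exact ⟨natDegree_eq_of_degree_eq (degree_eq_degree_of_associated ha1),
    natDegree_eq_of_degree_eq (degree_eq_degree_of_associated ha2)⟩

theorem rel_deg (k Ω : Type) [Field k] [Field Ω] [Algebra k Ω] (x t : Ω)
    (hx : Transcendental k x) (P Q : k[X]) (hQ : Q ≠ 0) (hc : IsCoprime P Q)
    (ht : aeval x P = t * aeval x Q) :
    IntermediateField.adjoin k {t} ≤ IntermediateField.adjoin k {x} ∧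
    IntermediateField.relfinrank (IntermediateField.adjoin k {t})
      (IntermediateField.adjoin k {x}) = max P.natDegree Q.natDegree := by
  have hinj : Function.Injective (aeval x : k[X] →ₐ[k] Ω) :=
    transcendental_iff_injective.1 hx
  have hφ : nonZeroDivisors k[X] ≤ (nonZeroDivisors Ω).comap (aeval x : k[X] →ₐ[k] Ω) :=
    nonZeroDivisors_le_comap_nonZeroDivisors_of_injective _ hinj
  set φ : RatFunc k →ₐ[k] Ω := RatFunc.liftAlgHom (aeval x) hφ with hφd
  have hQ' : aeval x Q ≠ 0 := by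
    intro h
    exact hQ (hinj (by rw [h, map_zero]))
  have hX : φ (RatFunc.X) = x := by
    have h := RatFunc.liftAlgHom_apply_div (aeval x : k[X] →ₐ[k] Ω) hφ X 1
    rw [map_one, div_one, map_one, div_one, aeval_X, RatFunc.algebraMap_X] at h
    exact h
  set f := algebraMap k[X] (RatFunc k) P / algebraMap k[X] (RatFunc k) Q with hf
  have hft : φ f = t := by
    have h := RatFunc.liftAlgHom_apply_div (aeval x : k[X] →ₐ[k] Ω) hφ P Q
    rw [← hf] at h
    rw [hφd, h, ht, mul_div_assoc, div_self hQ', mul_one]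
  have e1 : IntermediateField.adjoin k {x} = (IntermediateField.adjoin k {RatFunc.X}).map φ := by
    rw [IntermediateField.adjoin_map, Set.image_singleton, hX]
  have e2 : IntermediateField.adjoin k {t} = (IntermediateField.adjoin k {f}).map φ := by
    rw [IntermediateField.adjoin_map, Set.image_singleton, hft]
  obtain ⟨g1, g2⟩ := nd_num_denom P Q hQ hc
  constructor
  · rw [e1, e2, RatFunc.adjoin_X]
    exact IntermediateField.map_mono φ le_top
  · rw [e1, e2, IntermediateField.relfinrank_map_map, RatFunc.adjoin_X,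
      IntermediateField.relfinrank_top_right, RatFunc.finrank_eq_max_natDegree, g1, g2]

theorem slm_thm : S_SLM := by
  intro k Ω _ _ _ m S hm hS
  have h := rel_deg k Ω S (S ^ m) hS (X ^ m) 1 one_ne_zero isCoprime_one_right
    (by rw [map_pow, aeval_X, map_one, mul_one])
  rw [natDegree_X_pow, natDegree_one, max_eq_left (Nat.zero_le m)] at h
  exact h

theorem slt_thm : S_SLT := by
  intro k Ω _ _ _ q x t hq hx hxt
  have hx0 : x ≠ 0 := by
    rintro rfl
    exact hx isAlgebraic_zero
  have hqq : q ^ 2 - 1 = (q ^ 2 - q) + (q - 1) := by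
    have h1 : q ≤ q ^ 2 := by nlinarith
    omega
  have hq2 : q ^ 2 = (q ^ 2 - 1) + 1 := by
    have h1 : q ≤ q ^ 2 := by nlinarith
    omega
  have hq1 : q = (q - 1) + 1 := by omega
  have hc : IsCoprime (X ^ (q ^ 2 - 1) + 1 : k[X]) (X ^ (q - 1)) := by
    refine ⟨1, -X ^ (q ^ 2 - q), ?_⟩
    rw [hqq, pow_add]
    ring
  have ht : aeval x (X ^ (q ^ 2 - 1) + 1 : k[X]) = t * aeval x (X ^ (q - 1) : k[X]) := by
    rw [map_add, map_pow, map_pow, aeval_X, map_one]
    have h2 : x * (x ^ (q ^ 2 - 1) + 1) = x * (t * x ^ (q - 1)) := by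
      have h3 : x ^ (q ^ 2) = x ^ (q ^ 2 - 1) * x := by
        conv_lhs => rw [hq2]
        rw [pow_succ]
      have h4 : x ^ q = x ^ (q - 1) * x := by
        conv_lhs => rw [hq1]
        rw [pow_succ]
      rw [h3, h4] at hxt
      linear_combination hxt
    exact mul_left_cancel₀ hx0 h2
  have h := rel_deg k Ω x t hx (X ^ (q ^ 2 - 1) + 1) (X ^ (q - 1)) (pow_ne_zero _ X_ne_zero) hc ht
  have hn : (X ^ (q ^ 2 - 1) + 1 : k[X]).natDegree = q ^ 2 - 1 := by
    have h5 : (X ^ (q ^ 2 - 1) + 1 : k[X]) = X ^ (q ^ 2 - 1) + C 1 := by rw [C_1]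
    rw [h5, natDegree_X_pow_add_C]
  rw [hn, natDegree_X_pow, max_eq_left (by rw [hqq]; omega)] at h
  exact h

end Pool.CND
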