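import Pool.Agent.H55.CNE.SLT

/-! Row `SLM` of the board `cne` is `Pool.CND.slm_thm` of the imported file. -/
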